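import Mathlib

/-!
A countable partition of `ℝ^d` into sets of sup-diameter less than `1` such that every point lies in
the closures of at most two members.

Each open face (of any dimension) of the cubical grid is divided into concentric shells, whose
closures are compact subsets of the open face.
-/

open Set Filter Topology

namespace Pool.Agent.Results.MP_671186_gt.Counterexample

/-- `P` is a partition of `ℝ^d`. -/
def IsPartition {d : ℕ} (P : Set (Set (Fin d → ℝ))) : Prop :=
  (∀ X ∈ P, X.Nonempty) ∧ (∀ X ∈ P, ∀ Y ∈ P, X ≠ Y → Disjoint X Y) ∧ ⋃₀ P = univ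

/-- The strict pairwise bound `D` (the distance on `Fin d → ℝ` is the sup distance). -/
def StrictBound {d : ℕ} (X : Set (Fin d → ℝ)) (D : ℝ) : Prop := ∀ x ∈ X, ∀ y ∈ X, dist x y < D

/-- The members of `P` whose closures contain `p`. -/
def N {d : ℕ} (P : Set (Set (Fin d → ℝ))) (p : Fin d → ℝ) : Set (Set (Fin d → ℝ)) :=
  {X | X ∈ P ∧ p ∈ closure X}

/-- The statement asked about, in dimension `d`. -/
def Statement (d : ℕ) : Prop :=
  ∀ P : Set (Set (Fin d → ℝ)), IsPartition P → ∀ D : ℝ, 0 < D → (∀ X ∈ P, StrictBound X D) →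
    (∃ α : Fin d → ℝ, {X ∈ P | (X ∩ {x | ∀ i, α i ≤ x i ∧ x i ≤ α i + D}).Nonempty}.Countable) →
      ∃ p : Fin d → ℝ, (d + 1 : ℕ∞) ≤ (N P p).encard

/-! ### The partition -/

/-- Zero at the integers, and the inverse of the distance to the integers elsewhere (up to the
form of the expression). -/
noncomputable def h (t : ℝ) : ℝ := (Int.fract t * (1 - Int.fract t))⁻¹

theorem h_nonneg (t : ℝ) : 0 ≤ h t := by
  unfold h
  have h1 := Int.fract_nonneg t
  have h2 := (Int.fract_lt_one t).le
  exact inv_nonneg.2 (mul_nonneg h1 (by linarith))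

variable {d : ℕ}

/-- The sum of `h` over the coordinates. -/
noncomputable def H (x : Fin d → ℝ) : ℝ := ∑ i, h (x i)

theorem h_le_H (x : Fin d → ℝ) (i : Fin d) : h (x i) ≤ H x :=
  Finset.single_le_sum (f := fun i => h (x i)) (fun i _ => h_nonneg _) (Finset.mem_univ i)

/-- The label of a point: the open face that contains it, and the number of its shell. -/
noncomputable def label (x : Fin d → ℝ) : (Fin d → ℤ) × Set (Fin d) × ℕ :=
  (fun i => ⌊x i⌋, {i | Int.fract (x i) = 0}, ⌊H x⌋₊)

/-- The partition into the sets on which the label is constant. -/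
def Part (d : ℕ) : Set (Set (Fin d → ℝ)) := range fun x : Fin d → ℝ => {y | label y = label x}

theorem isPartition : IsPartition (Part d) := by
  refine ⟨?_, ?_, ?_⟩
  · rintro _ ⟨x, rfl⟩
    exact ⟨x, rfl⟩
  · rintro _ ⟨x, rfl⟩ _ ⟨y, rfl⟩ hne
    rw [Set.disjoint_left]
    intro z hz hz'
    apply hne
    have h1 : label z = label x := hz
    have h2 : label z = label y := hz'
    ext w
    show label w = label x ↔ label w = label y
    rw [← h1, ← h2]
  · exact eq_univ_of_forall fun x => ⟨_, ⟨x, rfl⟩, rfl⟩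

theorem countable_part : (Part d).Countable := by
  have h1 : Part d = (fun c => {y : Fin d → ℝ | label y = c}) '' range (label (d := d)) := by
    ext X
    constructor
    · rintro ⟨x, rfl⟩
      exact ⟨label x, ⟨x, rfl⟩, rfl⟩
    · rintro ⟨_, ⟨x, rfl⟩, rfl⟩
      exact ⟨x, rfl⟩
  rw [h1]
  exact (to_countable _).image _

theorem strictBound {X : Set (Fin d → ℝ)} (hX : X ∈ Part d) : StrictBound X 1 := by
  obtain ⟨z, rfl⟩ := hX
  intro x hx y hy
  have hxy : label x = label y := (hx : label x = label z).trans (hy : label y = label z).symm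
  rw [dist_pi_lt_iff one_pos]
  intro i
  have h1 : ⌊x i⌋ = ⌊y i⌋ := congrFun (congrArg Prod.fst hxy) i
  rw [Real.dist_eq]
  exact Int.abs_sub_lt_one_of_floor_eq_floor h1

/-- On the closure of a set of the partition, the open face is the same and the sum `H` lies between
the number of the shell and the next number. -/
theorem closure_label {p z : Fin d → ℝ} (hp : p ∈ closure {y : Fin d → ℝ | label y = label z}) :
    (∀ i, ⌊p i⌋ = ⌊z i⌋ ∧ (Int.fract (p i) = 0 ↔ Int.fract (z i) = 0)) ∧
      (⌊H z⌋₊ : ℝ) ≤ H p ∧ H p ≤ ⌊H z⌋₊ + 1 := by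
  set n := ⌊H z⌋₊ with hn
  obtain ⟨x, hx, hlim⟩ := mem_closure_iff_seq_limit.1 hp
  have hfl : ∀ k i, ⌊x k i⌋ = ⌊z i⌋ := fun k i =>
    congrFun (congrArg Prod.fst (hx k : label (x k) = label z)) i
  have hfr : ∀ k i, Int.fract (x k i) = 0 ↔ Int.fract (z i) = 0 := fun k i =>
    Set.ext_iff.1 (congrArg (fun c => c.2.1) (hx k : label (x k) = label z)) i
  have hnum : ∀ k, ⌊H (x k)⌋₊ = n := fun k =>
    congrArg (fun c => c.2.2) (hx k : label (x k) = label z)
  have hlt : ∀ k, H (x k) < n + 1 := by
    intro k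
    rw [← hnum k]
    exact Nat.lt_floor_add_one _
  have hge : ∀ k, (n : ℝ) ≤ H (x k) := by
    intro k
    rw [← hnum k]
    exact Nat.floor_le (Finset.sum_nonneg fun i _ => h_nonneg _)
  have hlimi : ∀ i, Tendsto (fun k => x k i) atTop (𝓝 (p i)) := fun i =>
    (tendsto_pi_nhds.1 hlim) i
  -- the coordinates
  have hcoord : ∀ i, ⌊p i⌋ = ⌊z i⌋ ∧ (Int.fract (p i) = 0 ↔ Int.fract (z i) = 0) ∧
      Tendsto (fun k => h (x k i)) atTop (𝓝 (h (p i))) := by
    intro i
    by_cases hz : Int.fract (z i) = 0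
    · have hxi : ∀ k, x k i = ⌊z i⌋ := by
        intro k
        have h1 := (hfr k i).2 hz
        rw [← hfl k i]
        have h2 := Int.floor_add_fract (x k i)
        rw [h1, add_zero] at h2
        exact h2.symm
      have hpi : p i = ⌊z i⌋ := by
        refine tendsto_nhds_unique (hlimi i) ?_
        simp only [hxi]
        exact tendsto_const_nhds
      refine ⟨?_, ?_, ?_⟩
      · rw [hpi, Int.floor_intCast]
      · rw [hpi, Int.fract_intCast]
        exact ⟨fun _ => hz, fun _ => rfl⟩
      · simp only [hxi, hpi]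
        exact tendsto_const_nhds
    · -- the coordinates stay away from the integers
      have hfrac : ∀ k, 0 < Int.fract (x k i) := by
        intro k
        refine lt_of_le_of_ne (Int.fract_nonneg _) fun h => hz ((hfr k i).1 h.symm)
      have hfrac1 : ∀ k, Int.fract (x k i) < 1 := fun k => Int.fract_lt_one _
      have hbound : ∀ k, ((n : ℝ) + 1)⁻¹ ≤ Int.fract (x k i) * (1 - Int.fract (x k i)) := by
        intro k
        have h1 : h (x k i) ≤ n + 1 := (h_le_H (x k) i).trans (hlt k).le
        have h2 : 0 < Int.fract (x k i) * (1 - Int.fract (x k i)) :=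
          mul_pos (hfrac k) (by linarith [hfrac1 k])
        unfold h at h1
        exact inv_le_of_inv_le₀ h2 h1
      have hx1 : ∀ k, ((n : ℝ) + 1)⁻¹ ≤ Int.fract (x k i) := by
        intro k
        have := hbound k
        nlinarith [hfrac k, hfrac1 k]
      have hx2 : ∀ k, Int.fract (x k i) ≤ 1 - ((n : ℝ) + 1)⁻¹ := by
        intro k
        have := hbound k
        nlinarith [hfrac k, hfrac1 k]
      have hxf : ∀ k, Int.fract (x k i) = x k i - ⌊z i⌋ := by
        intro k
        rw [← hfl k i]
        rfl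
      have hpos : (0 : ℝ) < ((n : ℝ) + 1)⁻¹ := by positivity
      have hlimf : Tendsto (fun k => x k i - ⌊z i⌋) atTop (𝓝 (p i - ⌊z i⌋)) :=
        (hlimi i).sub_const _
      have hp1 : ((n : ℝ) + 1)⁻¹ ≤ p i - ⌊z i⌋ :=
        ge_of_tendsto' hlimf fun k => by rw [← hxf]; exact hx1 k
      have hp2 : p i - ⌊z i⌋ ≤ 1 - ((n : ℝ) + 1)⁻¹ :=
        le_of_tendsto' hlimf fun k => by rw [← hxf]; exact hx2 k
      have hpfl : ⌊p i⌋ = ⌊z i⌋ := by
        rw [Int.floor_eq_iff]
        constructor
        · linarith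
        · linarith
      have hpf : Int.fract (p i) = p i - ⌊z i⌋ := by
        rw [← hpfl]
        rfl
      refine ⟨hpfl, ?_, ?_⟩
      · rw [hpf]
        constructor
        · intro h0
          linarith
        · intro h0
          exact (hz h0).elim
      · unfold h
        rw [hpf]
        simp only [hxf]
        refine (hlimf.mul (tendsto_const_nhds.sub hlimf)).inv₀ ?_
        have h1 : 0 < p i - ⌊z i⌋ := by linarith
        have h2 : 0 < 1 - (p i - ⌊z i⌋) := by linarith
        exact (mul_pos h1 h2).ne'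
  have hH : Tendsto (fun k => H (x k)) atTop (𝓝 (H p)) :=
    tendsto_finset_sum _ fun i _ => (hcoord i).2.2
  exact ⟨fun i => ⟨(hcoord i).1, (hcoord i).2.1⟩, ge_of_tendsto' hH hge,
    le_of_tendsto' hH fun k => (hlt k).le⟩

theorem encard_N_le (p : Fin d → ℝ) : (N (Part d) p).encard ≤ 2 := by
  have hsub : N (Part d) p ⊆ (fun n : ℕ => {y : Fin d → ℝ | label y = ((label p).1,
      (label p).2.1, n)}) '' {⌊H p⌋₊, ⌊H p⌋₊ - 1} := by
    rintro _ ⟨⟨z, rfl⟩, hp⟩
    obtain ⟨h1, h2, h3⟩ := closure_label hp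
    refine ⟨⌊H z⌋₊, ?_, ?_⟩
    · have h4 : ⌊H z⌋₊ ≤ ⌊H p⌋₊ := Nat.le_floor h2
      have h5 : ⌊H p⌋₊ ≤ ⌊H z⌋₊ + 1 := by
        have := Nat.floor_mono h3
        rwa [Nat.floor_add_one (Nat.cast_nonneg _), Nat.floor_natCast] at this
      rcases Nat.lt_or_ge ⌊H z⌋₊ ⌊H p⌋₊ with h6 | h6
      · right
        rw [mem_singleton_iff]
        omega
      · left
        omega
    · have h4 : label z = ((label p).1, (label p).2.1, ⌊H z⌋₊) := by
        refine Prod.ext ?_ (Prod.ext ?_ rfl)
        · ext i
          exact (h1 i).1.symm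
        · ext i
          exact (h1 i).2.symm
      show {y | label y = ((label p).1, (label p).2.1, ⌊H z⌋₊)} = {y | label y = label z}
      rw [← h4]
  refine (encard_le_encard hsub).trans ((encard_image_le _ _).trans ?_)
  refine (encard_insert_le _ _).trans ?_
  rw [encard_singleton]
  norm_num

/-- In every dimension there is a countable partition of `ℝ^d` into sets with strict pairwise bound
`1` such that every point lies in the closures of at most two members. Hence the statement asked
about fails in every dimension `d ≥ 2`. -/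
theorem result : (∀ d : ℕ, ∃ P : Set (Set (Fin d → ℝ)), IsPartition P ∧ P.Countable ∧
      (∀ X ∈ P, StrictBound X 1) ∧ ∀ p, (N P p).encard ≤ 2) ∧
    ∀ d : ℕ, 2 ≤ d → ¬ Statement d := by
  refine ⟨fun d => ⟨Part d, isPartition, countable_part, fun X hX => strictBound hX,
    encard_N_le⟩, fun d hd hS => ?_⟩
  obtain ⟨p, hp⟩ := hS (Part d) isPartition 1 one_pos (fun X hX => strictBound hX)
    ⟨0, countable_part.mono fun X hX => hX.1⟩
  have h1 := hp.trans (encard_N_le p)
  have h2 : (d + 1 : ℕ∞) = ((d + 1 : ℕ) : ℕ∞) := by push_cast; rfl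
  rw [h2, show (2 : ℕ∞) = ((2 : ℕ) : ℕ∞) from rfl, Nat.cast_le] at h1
  omega

end Pool.Agent.Results.MP_671186_gt.Counterexample
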